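import Mathlib
import Pool.Agent.H57.Circ2

namespace Pool.Agent.Results.MP_73edb1_nt.Holds

/-- For every odd prime p, the permanent of the p by p matrix of i - l + delta is congruent to
4p + 1 modulo p squared. -/
theorem result : ∀ p : ℕ, p.Prime → p ≠ 2 →
    (Matrix.of fun i l : Fin p =>
      (((i : ℕ) : ℤ) + 1) - (((l : ℕ) : ℤ) + 1) + if i = l then 1 else 0).permanent ≡
        4 * (p : ℤ) + 1 [ZMOD (p : ℤ) ^ 2] := by
  intro p hp h2
  have := Fact.mk hp
  have h := Pool.Agent.H57.Circ.per_sq h2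
  have h3 := Pool.Agent.H57.Circ.sum_fin (p := p)
    (fun a b => (a : ℤ) - (b : ℤ) + if a = b then 1 else 0)
  simp only [Fin.val_inj, (ZMod.val_injective p).eq_iff] at h3
  simp only [Matrix.permanent, Matrix.of_apply, add_sub_add_right_eq_sub]
  rw [h3]
  exact (Int.modEq_iff_dvd.2 h).symm

end Pool.Agent.Results.MP_73edb1_nt.Holds
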